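import Pool.Agent.Run7.h819.QW.W5a

/-!
# Project QW (helper630), piece W5a for general two-forms
-/

set_option autoImplicit false
set_option linter.unusedSectionVars false

open scoped ComplexConjugate

namespace Run7.h819.QW

open Run7.h4.YM Run7.h630.QC Run7.h630.QF Run7.h630.QW Finset

variable {N n L l : ℕ}

lemma half (u : Fin 4 → Fin 4 → ℝ) (hu : ∀ i j, u j i = -u i j) (T : Fin 4 → Fin 4 → ℂ) :
    ∑ i : Fin 4, ∑ j ∈ Ioi i, (u i j : ℂ) * (T i j - T j i) =
      ∑ i : Fin 4, ∑ j : Fin 4, (u i j : ℂ) * T i j := by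
  have e0 : Ioi (0 : Fin 4) = {1, 2, 3} := by decide
  have e1 : Ioi (1 : Fin 4) = {2, 3} := by decide
  have e2 : Ioi (2 : Fin 4) = {3} := by decide
  have e3 : Ioi (3 : Fin 4) = ∅ := by decide
  have hd : ∀ i, u i i = 0 := fun i => by
    have := hu i i
    linarith
  have s3 : ∀ F : Fin 4 → ℂ, ∑ j ∈ ({1, 2, 3} : Finset (Fin 4)), F j = F 1 + F 2 + F 3 := by
    intro F
    rw [sum_insert (by decide), sum_insert (by decide), sum_singleton]
    ring
  have s2 : ∀ F : Fin 4 → ℂ, ∑ j ∈ ({2, 3} : Finset (Fin 4)), F j = F 2 + F 3 := by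
    intro F
    rw [sum_insert (by decide), sum_singleton]
  rw [Fin.sum_univ_four, e0, e1, e2, e3, s3, s2, sum_singleton, sum_empty]
  simp only [Fin.sum_univ_four]
  rw [hd 0, hd 1, hd 2, hd 3, hu 0 1, hu 0 2, hu 0 3, hu 1 2, hu 1 3, hu 2 3]
  push_cast
  ring

lemma nb_sum (k : ℕ) (α : Col N) (i : Fin 4) (c : Fin 4 → ℂ) (h : Fin 4 → Site n L l → ℂ)
    (x : Site n L l) : nb k α i (fun z => ∑ a : Fin 4, c a * h a z) x =
      ∑ a : Fin 4, c a * nb k α i (h a) x := by
  unfold nb
  rw [mul_sum, ← sum_sub_distrib]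
  refine sum_congr rfl fun a _ => ?_
  ring

/-- the two-form `u` at the site `y` -/
def du (u : Fin 4 → Fin 4 → ℝ) (y : Site n L l) (a b : Fin 4) (x : Site n L l) : ℂ :=
  if x = y then (u a b : ℂ) else 0

lemma pot_du (k : ℕ) (α : Col N) (u : Fin 4 → Fin 4 → ℝ) (y : Site n L l) (b : Fin 4) :
    pot k α (du u y) b = fun z => ∑ a : Fin 4, (u a b : ℂ) * Gr n L l k α (nbs k α a (dt y)) z := by
  have h1 : (fun x => ∑ a : Fin 4, nbs k α a (du u y a b) x) =
      ∑ a : Fin 4, (u a b : ℂ) • nbs k α a (dt y) := by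
    funext x
    rw [Finset.sum_apply]
    refine sum_congr rfl fun a _ => ?_
    rw [Pi.smul_apply, smul_eq_mul]
    unfold nbs du dt
    split_ifs <;> ring
  unfold pot
  rw [h1, map_sum]
  funext z
  rw [Finset.sum_apply]
  refine sum_congr rfl fun a _ => ?_
  rw [map_smul, Pi.smul_apply, smul_eq_mul]

/-- the curl of the potential -/
noncomputable def kv (k : ℕ) (α : Col N) (v : Fin 4 → Fin 4 → ℝ) (i j : Fin 4)
    (x y : Site n L l) : ℂ :=
  nb k α i (pot k α (du v y) j) x - nb k α j (pot k α (du v y) i) x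

lemma kv_eq (k : ℕ) (α : Col N) (v : Fin 4 → Fin 4 → ℝ) (i j : Fin 4) (x y : Site n L l) :
    kv k α v i j x y = ∑ a : Fin 4, (v a j : ℂ) * KK k α i a x y -
      ∑ a : Fin 4, (v a i : ℂ) * KK k α j a x y := by
  unfold kv
  rw [pot_du, pot_du, nb_sum, nb_sum]
  rfl

lemma kv_kr (k : ℕ) (α : Col N) (v : Fin 4 → Fin 4 → ℝ) (hv : ∀ i j, v j i = -v i j)
    (i j : Fin 4) (x y : Site n L l) :
    ∑ i' : Fin 4, ∑ j' ∈ Ioi i', (v i' j' : ℂ) * kr k α i j i' j' x y = kv k α v i j x y := by
  have h1 : ∀ i' : Fin 4, ∑ j' ∈ Ioi i', (v i' j' : ℂ) * kr k α i j i' j' x y =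
      ∑ j' ∈ Ioi i', (v i' j' : ℂ) *
        ((fun a b => (if j = b then KK k α i a x y else 0) -
          (if i = b then KK k α j a x y else 0)) i' j' -
        (fun a b => (if j = b then KK k α i a x y else 0) -
          (if i = b then KK k α j a x y else 0)) j' i') := by
    intro i'
    refine sum_congr rfl fun j' hj' => ?_
    rw [kr_eq k α i j i' j' (mem_Ioi.1 hj').ne]
    congr 1
    ring
  rw [sum_congr rfl fun i' _ => h1 i', half v hv, kv_eq, ← sum_sub_distrib]
  refine sum_congr rfl fun a _ => ?_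
  simp only [mul_sub, sum_sub_distrib, mul_ite, mul_zero, sum_ite_eq, mem_univ, if_true]

/-- the pairing of two two-forms -/
noncomputable def ku (k : ℕ) (α : Col N) (u v : Fin 4 → Fin 4 → ℝ) (x y : Site n L l) : ℂ :=
  ∑ i : Fin 4, ∑ j ∈ Ioi i, (u i j : ℂ) * kv k α v i j x y

lemma ku_eq (k : ℕ) (α : Col N) (u v : Fin 4 → Fin 4 → ℝ) (hu : ∀ i j, u j i = -u i j)
    (x y : Site n L l) : ku k α u v x y =
      ∑ i : Fin 4, ∑ j : Fin 4, ∑ a : Fin 4, (u i j : ℂ) * (v a j : ℂ) * KK k α i a x y := by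
  unfold ku
  simp only [kv_eq]
  rw [half u hu (fun i j => ∑ a : Fin 4, (v a j : ℂ) * KK k α i a x y)]
  refine sum_congr rfl fun i _ => sum_congr rfl fun j _ => ?_
  rw [mul_sum]
  refine sum_congr rfl fun a _ => ?_
  ring

lemma ku_kr (k : ℕ) (α : Col N) (u v : Fin 4 → Fin 4 → ℝ) (hv : ∀ i j, v j i = -v i j)
    (x y : Site n L l) : ku k α u v x y =
      ∑ i : Fin 4, ∑ j ∈ Ioi i, ∑ i' : Fin 4, ∑ j' ∈ Ioi i',
        (u i j : ℂ) * (v i' j' : ℂ) * kr k α i j i' j' x y := by
  unfold ku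
  refine sum_congr rfl fun i _ => sum_congr rfl fun j _ => ?_
  rw [← kv_kr k α v hv, mul_sum]
  refine sum_congr rfl fun i' _ => ?_
  rw [mul_sum]
  refine sum_congr rfl fun j' _ => ?_
  ring

lemma ku_conj [NeZero n] [NeZero L] [NeZero l] (k : ℕ) (α : Col N) (hI : Inv n L l k α)
    (u v : Fin 4 → Fin 4 → ℝ) (hu : ∀ i j, u j i = -u i j) (hv : ∀ i j, v j i = -v i j)
    (x y : Site n L l) : conj (ku k α u v x y) = ku k α v u y x := by
  rw [ku_eq k α u v hu, ku_eq k α v u hv]
  simp only [map_sum, map_mul, Complex.conj_ofReal, KK_conj k α hI]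
  rw [sum_comm]
  conv_rhs => rw [sum_comm]
  refine sum_congr rfl fun j _ => ?_
  rw [sum_comm]
  refine sum_congr rfl fun a _ => sum_congr rfl fun i _ => ?_
  ring

lemma ku_ng [NeZero N] (k : ℕ) (α : Col N) (hI : Inv n L l k α) (hI' : Inv n L l k (ng α))
    (u v : Fin 4 → Fin 4 → ℝ) (hu : ∀ i j, u j i = -u i j) (x y : Site n L l) :
    ku k (ng α) u v x y = conj (ku k α u v x y) := by
  rw [ku_eq k (ng α) u v hu, ku_eq k α u v hu]
  simp only [map_sum, map_mul, Complex.conj_ofReal, KK_ng k α hI hI']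

section Prg

variable [NeZero N] [NeZero n] [NeZero L] [NeZero l]

/-- the coefficients of the field of the colour `α` with the two-form `w u` at `y` -/
def pu (α : Col N) (w : ℂ) (u : Fin 4 → Fin 4 → ℝ) (y : Site n L l) (α' : Col N) (a b : Fin 4)
    (x : Site n L l) : ℂ := if α' = α then w * du u y a b x else 0

lemma prg_pu (k : ℕ) {α : Col N} (hα : α ∈ Cz N) (w : ℂ) (u : Fin 4 → Fin 4 → ℝ)
    (x : Site n L l) (a : Col N → Fin 4 → Site n L l → ℂ) :
    prg k (pu α w u x) a = (w * ∑ i : Fin 4, ∑ j ∈ Ioi i, (u i j : ℂ) *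
      conj (nb k α i (a α j) x - nb k α j (a α i) x)).re := by
  unfold prg
  rw [sum_eq_single_of_mem α hα, sum_eq_single_of_mem x (mem_univ _)]
  · rw [mul_sum, Complex.re_sum]
    refine sum_congr rfl fun i _ => ?_
    rw [mul_sum, Complex.re_sum]
    refine sum_congr rfl fun j _ => ?_
    simp only [pu, du, if_true]
    rw [mul_assoc]
  · intro z _ hz
    refine sum_eq_zero fun b _ => sum_eq_zero fun c _ => ?_
    simp [pu, du, hz]
  · intro β _ hβ
    refine sum_eq_zero fun z _ => sum_eq_zero fun b _ => sum_eq_zero fun c _ => ?_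
    simp [pu, hβ]

lemma po_pu (k : ℕ) (α : Col N) (w : ℂ) (v : Fin 4 → Fin 4 → ℝ) (x : Site n L l) (β : Col N)
    (b : Fin 4) :
    po k (pu α w v x) β b = fun z => if β = α then w * pot k β (du v x) b z else 0 := by
  unfold po
  by_cases h : β = α
  · subst h
    simp only [if_true]
    have h1 : (fun z => ∑ a : Fin 4, nbs k β a (pu β w v x β a b) z) =
        w • fun z => ∑ a : Fin 4, nbs k β a (du v x a b) z := by
      funext z
      rw [Pi.smul_apply, smul_eq_mul, mul_sum]
      refine sum_congr rfl fun a _ => ?_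
      unfold nbs pu
      simp only [if_true]
      ring
    unfold pot
    rw [h1, map_smul]
    rfl
  · simp only [h, if_false]
    have h1 : (fun z => ∑ a : Fin 4, nbs k β a (pu α w v x β a b) z) = 0 := by
      funext z
      rw [Pi.zero_apply]
      refine sum_eq_zero fun a _ => ?_
      unfold nbs pu
      simp [h]
    unfold pot
    rw [h1, map_zero]
    rfl

lemma curl_pu (k : ℕ) (α : Col N) (w : ℂ) (v : Fin 4 → Fin 4 → ℝ) (x y : Site n L l)
    (β : Col N) (i j : Fin 4) :
    nb k β i (po k (pu α w v y) β j) x - nb k β j (po k (pu α w v y) β i) x =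
      if β = α then w * kv k β v i j x y else 0 := by
  rw [po_pu, po_pu]
  by_cases h : β = α
  · simp only [h, if_true]
    unfold kv nb
    ring
  · simp only [h, if_false]
    unfold nb
    simp

lemma BU1 (k : ℕ) {α α' : Col N} (hα : α ∈ Cz N) (w w' : ℂ) (u v : Fin 4 → Fin 4 → ℝ)
    (x y : Site n L l) :
    prg k (pu α w u x) (po k (pu α' w' v y)) =
      (w * conj (if α = α' then w' * ku k α u v x y else 0)).re := by
  rw [prg_pu k hα]
  congr 2
  by_cases h : α = α'
  · rw [if_pos h]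
    unfold ku
    rw [map_mul, map_sum, mul_sum]
    refine sum_congr rfl fun i _ => ?_
    rw [map_sum, mul_sum]
    refine sum_congr rfl fun j _ => ?_
    rw [curl_pu, if_pos h, map_mul, map_mul, Complex.conj_ofReal]
    ring
  · rw [if_neg h, map_zero]
    refine sum_eq_zero fun i _ => sum_eq_zero fun j _ => ?_
    rw [curl_pu, if_neg h, map_zero, mul_zero]

lemma BU2 (χ : Col N → ℂ) (k : ℕ) {α α' : Col N} (hα : α ∈ Cz N) (w w' : ℂ)
    (u v : Fin 4 → Fin 4 → ℝ) (x y : Site n L l) :
    prg k (pu α w u x) (tw0 χ (po k (pu α' w' v y))) =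
      (w * (N * χ α * (if ng α = α' then w' * ku k (ng α) u v x y else 0))).re := by
  rw [prg_pu k hα]
  congr 2
  have h1 : ∀ i j : Fin 4, nb k α i (tw0 χ (po k (pu α' w' v y)) α j) x -
      nb k α j (tw0 χ (po k (pu α' w' v y)) α i) x = N * conj (χ α) *
        conj (if ng α = α' then w' * kv k (ng α) v i j x y else 0) := by
    intro i j
    rw [← curl_pu]
    unfold nb tw0
    simp only [rh_ng, map_sub, map_mul, Complex.conj_conj]
    ring
  by_cases h : ng α = α'
  · rw [if_pos h]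
    unfold ku
    rw [mul_sum, mul_sum]
    refine sum_congr rfl fun i _ => ?_
    rw [mul_sum, mul_sum]
    refine sum_congr rfl fun j _ => ?_
    rw [h1, if_pos h, map_mul, map_mul, Complex.conj_conj, Complex.conj_conj,
      Complex.conj_natCast]
    ring
  · rw [if_neg h, mul_zero]
    refine sum_eq_zero fun i _ => sum_eq_zero fun j _ => ?_
    rw [h1, if_neg h, map_zero, mul_zero, map_zero, mul_zero]

end Prg

/-- the algebra of the squares -/
lemma squares [NeZero N] (χ : ℂ) (hχ : ‖χ‖ = 1) {α : Col N} (hα : α ∈ Cz N) (κ : ℂ)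
    (hr : ng α = α → conj κ = κ) (F : Col N → ℂ → ℂ → ℝ)
    (hF : ∀ α' ∈ Cz N, ∀ w w' : ℂ, F α' w w' =
      N * ((if α' = α then (w * conj w' * conj κ).re else 0) -
        (if α' = ng α then (w * w' * χ * conj κ).re else 0))) :
    ∑ w ∈ ({1, Complex.I} : Finset ℂ), ∑ α' ∈ Cz N, ∑ w' ∈ ({1, Complex.I} : Finset ℂ),
      F α' w w' ^ 2 = 4 * N ^ 2 * ‖κ‖ ^ 2 := by
  rw [sum_w]
  simp only [sum_w]
  have hnorm : ‖κ‖ ^ 2 = κ.re ^ 2 + κ.im ^ 2 := by
    rw [← Complex.normSq_eq_norm_sq, Complex.normSq_apply]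
    ring
  have hχn : χ.re ^ 2 + χ.im ^ 2 = 1 := by
    have := Complex.normSq_eq_norm_sq χ
    rw [hχ, Complex.normSq_apply] at this
    linarith
  have hS : ∀ w : ℂ, ∑ α' ∈ Cz N, (F α' w 1 ^ 2 + F α' w Complex.I ^ 2) =
      ∑ α' ∈ Cz N, ((N * ((if α' = α then (w * conj κ).re else 0) -
          (if α' = ng α then (w * χ * conj κ).re else 0))) ^ 2 +
        (N * ((if α' = α then (w * -Complex.I * conj κ).re else 0) -
          (if α' = ng α then (w * Complex.I * χ * conj κ).re else 0))) ^ 2) := by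
    intro w
    refine sum_congr rfl fun α' hα' => ?_
    rw [hF α' hα' w 1, hF α' hα' w Complex.I]
    simp only [map_one, mul_one, Complex.conj_I]
  rw [hS, hS]
  by_cases hng : ng α = α
  · have hreal : κ.im = 0 := Complex.conj_eq_iff_im.1 (hr hng)
    have hone : ∀ w : ℂ, ∑ α' ∈ Cz N, ((N * ((if α' = α then (w * conj κ).re else 0) -
          (if α' = ng α then (w * χ * conj κ).re else 0))) ^ 2 +
        (N * ((if α' = α then (w * -Complex.I * conj κ).re else 0) -
          (if α' = ng α then (w * Complex.I * χ * conj κ).re else 0))) ^ 2) =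
        (N * ((w * conj κ).re - (w * χ * conj κ).re)) ^ 2 +
          (N * ((w * -Complex.I * conj κ).re - (w * Complex.I * χ * conj κ).re)) ^ 2 := by
      intro w
      rw [sum_eq_single_of_mem α hα]
      · rw [hng]
        simp only [if_true]
      · intro β _ hβ
        rw [hng]
        simp only [if_neg hβ]
        ring
    rw [hone, hone, hnorm]
    simp only [Complex.mul_re, Complex.mul_im, Complex.conj_re, Complex.conj_im, Complex.one_re,
      Complex.one_im, Complex.I_re, Complex.I_im, Complex.neg_re, Complex.neg_im, hreal]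
    linear_combination (2 * (N : ℝ) ^ 2 * κ.re ^ 2) * hχn
  · have htwo : ∀ w : ℂ, ∑ α' ∈ Cz N, ((N * ((if α' = α then (w * conj κ).re else 0) -
          (if α' = ng α then (w * χ * conj κ).re else 0))) ^ 2 +
        (N * ((if α' = α then (w * -Complex.I * conj κ).re else 0) -
          (if α' = ng α then (w * Complex.I * χ * conj κ).re else 0))) ^ 2) =
        ((N * (w * conj κ).re) ^ 2 + (N * (w * -Complex.I * conj κ).re) ^ 2) +
          ((N * (w * χ * conj κ).re) ^ 2 + (N * (w * Complex.I * χ * conj κ).re) ^ 2) := by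
      intro w
      rw [← sum_erase_add _ _ hα, ← sum_erase_add _ _ (mem_erase.2 ⟨hng, ng_mem hα⟩),
        sum_eq_zero]
      · rw [if_pos rfl, if_pos rfl, if_pos rfl, if_pos rfl, if_neg hng, if_neg hng,
          if_neg (fun h => hng h.symm), if_neg (fun h => hng h.symm)]
        ring
      · intro β hβ
        rw [mem_erase, mem_erase] at hβ
        rw [if_neg hβ.1, if_neg hβ.1, if_neg hβ.2.1, if_neg hβ.2.1]
        ring
    rw [htwo, htwo, hnorm]
    simp only [Complex.mul_re, Complex.mul_im, Complex.conj_re, Complex.conj_im, Complex.one_re,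
      Complex.one_im, Complex.I_re, Complex.I_im, Complex.neg_re, Complex.neg_im]
    linear_combination (2 * (N : ℝ) ^ 2 * (κ.re ^ 2 + κ.im ^ 2)) * hχn

/-- the form of `W5a` for general two-forms -/
theorem W5a_gen (N n L l k : ℕ) [NeZero N] [NeZero n] [NeZero L] [NeZero l]
    (hk : Nat.Coprime k N) (χ : Col N → ℂ) (hχ1 : ∀ α, ‖χ α‖ = 1) (hχ2 : ∀ α, χ (ng α) = χ α)
    (u v : Fin 4 → Fin 4 → ℝ) (hu : ∀ i j, u j i = -u i j) (hv : ∀ i j, v j i = -v i j)
    (x y : Site n L l) :
    ∑ α ∈ Cz N, ∑ w ∈ ({1, Complex.I} : Finset ℂ), ∑ α' ∈ Cz N,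
      ∑ w' ∈ ({1, Complex.I} : Finset ℂ), ct χ k (pu α w u x) (pu α' w' v y) ^ 2 =
    4 * N ^ 2 * ∑ α ∈ Cz N, ‖∑ i : Fin 4, ∑ j ∈ Ioi i, ∑ i' : Fin 4, ∑ j' ∈ Ioi i',
        (u i j : ℂ) * (v i' j' : ℂ) * kr k α i j i' j' x y‖ ^ 2 := by
  obtain ⟨C, _, hC⟩ := Run7.h270.QC.t_Q5a N
  have hInv : ∀ α ∈ Cz N, Inv n L l k α := by
    intro α hα
    rw [Cz, mem_erase] at hα
    obtain ⟨h1, h2, _⟩ := hC n L l k hk α hα.1
    exact ⟨h1, h2⟩
  have hct : ∀ α ∈ Cz N, ∀ α' ∈ Cz N, ∀ w w' : ℂ,
      ct χ k (pu α w u x) (pu α' w' v y) =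
        N * ((if α' = α then (w * conj w' * conj (ku k α u v x y)).re else 0) -
          (if α' = ng α then (w * w' * χ α * conj (ku k α u v x y)).re else 0)) := by
    intro α hα α' hα' w w'
    rw [ct_eq, BU1 k hα w w', BU1 k hα' w' w, BU2 χ k hα w w', BU2 χ k hα' w' w]
    have e1 : (w * conj (if α = α' then w' * ku k α u v x y else 0)).re =
        if α' = α then (w * conj w' * conj (ku k α u v x y)).re else 0 := by
      by_cases h : α' = α
      · rw [if_pos h.symm, if_pos h, map_mul, mul_assoc]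
      · rw [if_neg (fun h' => h h'.symm), if_neg h]
        simp
    have e2 : (w' * conj (if α' = α then w * ku k α' v u y x else 0)).re =
        if α' = α then (w * conj w' * conj (ku k α u v x y)).re else 0 := by
      by_cases h : α' = α
      · rw [if_pos h, if_pos h, h, ← ku_conj k α (hInv α hα) u v hu hv, map_mul,
          Complex.conj_conj, ← Complex.conj_re, map_mul, map_mul, Complex.conj_conj]
        congr 1
        ring
      · rw [if_neg h, if_neg h]
        simp
    have e3 : (w * (N * χ α * (if ng α = α' then w' * ku k (ng α) u v x y else 0))).re =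
        N * (if α' = ng α then (w * w' * χ α * conj (ku k α u v x y)).re else 0) := by
      by_cases h : α' = ng α
      · rw [if_pos h.symm, if_pos h, ku_ng k α (hInv α hα) (hInv _ (ng_mem hα)) u v hu,
          ← Complex.re_ofReal_mul]
        congr 1
        push_cast
        ring
      · rw [if_neg (fun h' => h h'.symm), if_neg h]
        simp
    have e4 : (w' * (N * χ α' * (if ng α' = α then w * ku k (ng α') v u y x else 0))).re =
        N * (if α' = ng α then (w * w' * χ α * conj (ku k α u v x y)).re else 0) := by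
      by_cases h : α' = ng α
      · have h5 : ng α' = α := by rw [h, ng_ng]
        rw [if_pos h5, if_pos h, h5, ← ku_conj k α (hInv α hα) u v hu hv,
          ← Complex.re_ofReal_mul, h, hχ2]
        congr 1
        push_cast
        ring
      · have h5 : ¬ ng α' = α := fun h6 => h (by rw [← h6, ng_ng])
        rw [if_neg h5, if_neg h]
        simp
    rw [e1, e2, e3, e4]
    ring
  rw [mul_sum]
  refine sum_congr rfl fun α hα => ?_
  rw [← ku_kr k α u v hv]
  refine squares (χ α) (hχ1 α) hα (ku k α u v x y) (fun hng => ?_)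
    (fun α' w w' => ct χ k (pu α w u x) (pu α' w' v y)) (fun α' hα' w w' => hct α hα α' hα' w w')
  have h1 := ku_ng k α (hInv α hα) (hInv _ (ng_mem hα)) u v hu x y
  rw [hng] at h1
  exact h1.symm

end Run7.h819.QW
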