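import Pool.Agent.Run7.h630.QW.Gen
import Pool.Agent.Run7.h819.QW.W5aU

/-!
# Project QW (helper630), stage two, piece V5a
-/

set_option autoImplicit false

open scoped ComplexConjugate

namespace Run7.h819.QW

open Run7.h4.YM Run7.h630.QC Run7.h630.QF Finset

/-- the antisymmetric form -/
def asym (u : Fin 4 → Fin 4 → ℝ) (a b : Fin 4) : ℝ :=
  if a < b then u a b else if b < a then -u b a else 0

lemma asym_swap (u : Fin 4 → Fin 4 → ℝ) (i j : Fin 4) : asym u j i = -asym u i j := by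
  unfold asym
  rcases lt_trichotomy i j with h | h | h
  · rw [if_neg (not_lt.2 h.le), if_pos h, if_pos h]
  · subst h
    simp
  · rw [if_pos h, if_neg (not_lt.2 h.le), if_pos h, neg_neg]

lemma asym_lt (u : Fin 4 → Fin 4 → ℝ) {i j : Fin 4} (h : j ∈ Ioi i) : asym u i j = u i j := by
  unfold asym
  rw [if_pos (mem_Ioi.1 h)]

/-- Piece `V5a`. -/
theorem t_V5a : Run7.h630.QW.S_V5a := by
  intro N n L l k _ _ _ _ hk χ h1 h2 u v x y
  have hpu : ∀ (α : Col N) (w : ℂ) (u : Fin 4 → Fin 4 → ℝ) (y : Site n L l),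
      Run7.h630.QW.pu α w u y = Run7.h819.QW.pu α w (asym u) y := by
    intro α w u y
    funext α' a b z
    unfold Run7.h630.QW.pu Run7.h819.QW.pu du asym
    by_cases h3 : α' = α
    · by_cases h4 : z = y
      · rw [if_pos ⟨h3, h4⟩, if_pos h3, if_pos h4]
      · rw [if_neg (fun h => h4 h.2), if_pos h3, if_neg h4, mul_zero]
    · rw [if_neg (fun h => h3 h.1), if_neg h3]
  have hkr : ∀ α : Col N, Run7.h630.QW.kru k α u v x y =
      ∑ i : Fin 4, ∑ j ∈ Ioi i, ∑ i' : Fin 4, ∑ j' ∈ Ioi i',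
        (asym u i j : ℂ) * (asym v i' j' : ℂ) * Run7.h630.QW.kr k α i j i' j' x y := by
    intro α
    unfold Run7.h630.QW.kru
    refine sum_congr rfl fun i _ => sum_congr rfl fun j hj => sum_congr rfl fun i' _ =>
      sum_congr rfl fun j' hj' => ?_
    rw [asym_lt u hj, asym_lt v hj']
    push_cast
    ring
  simp only [hpu, hkr]
  exact W5a_gen N n L l k hk χ h1 h2 (asym u) (asym v) (asym_swap u) (asym_swap v) x y

end Run7.h819.QW
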