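import Pool.Agent.Run7.h630.QW.Iface
import Pool.Agent.Run7.h270.QC.Q5a

/-!
# Project QW (helper630), piece W5a: the algebra of the point-like functions
-/

set_option autoImplicit false

open scoped ComplexConjugate

namespace Run7.h819.QW

open Run7.h4.YM Run7.h630.QC Run7.h630.QF Run7.h630.QW Finset

variable {N n L l : ℕ}

lemma om_pow [NeZero N] (k : ℕ) : Run7.h630.MQ.om N k ^ N = 1 := by
  unfold Run7.h630.MQ.om
  rw [← Complex.exp_nat_mul]
  have h : (N : ℂ) ≠ 0 := by exact_mod_cast NeZero.ne N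
  rw [show (N : ℂ) * (2 * Real.pi * Complex.I * (k / N)) = k * (2 * Real.pi * Complex.I) by
    field_simp]
  exact Complex.exp_nat_mul_two_pi_mul_I k

lemma om_conj (N k : ℕ) : conj (Run7.h630.MQ.om N k) * Run7.h630.MQ.om N k = 1 := by
  have h : ‖Run7.h630.MQ.om N k‖ = 1 := by
    unfold Run7.h630.MQ.om
    have : (2 * Real.pi * Complex.I * (k / N) : ℂ) =
        ((2 * Real.pi * (k / N) : ℝ) : ℂ) * Complex.I := by
      push_cast; ring
    rw [this, Complex.norm_exp_ofReal_mul_I]
  rw [Complex.conj_mul', h]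
  norm_num

lemma ng_ng [NeZero N] (α : Col N) : ng (ng α) = α := by
  have key : ∀ a : Fin N, (N - (N - (a : ℕ)) % N) % N = a := by
    intro a
    have h1 := a.2
    rcases Nat.eq_zero_or_pos (a : ℕ) with h | h
    · rw [h, Nat.sub_zero, Nat.mod_self, Nat.sub_zero, Nat.mod_self]
    · rw [Nat.mod_eq_of_lt (by omega : N - (a : ℕ) < N),
        show N - (N - (a : ℕ)) = a by omega, Nat.mod_eq_of_lt h1]
  unfold ng
  exact Prod.ext (Fin.ext (key _)) (Fin.ext (key _))

lemma ng_zero [NeZero N] : ng ((0, 0) : Col N) = (0, 0) := by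
  unfold ng
  refine Prod.ext (Fin.ext ?_) (Fin.ext ?_) <;> simp

lemma ng_mem [NeZero N] {α : Col N} (h : α ∈ Cz N) : ng α ∈ Cz N := by
  rw [Cz, mem_erase] at h ⊢
  refine ⟨fun h1 => h.1 ?_, mem_univ _⟩
  rw [← ng_ng α, h1, ng_zero]

lemma pow_ng (ζ : ℂ) (h1 : ζ ^ N = 1) (h2 : conj ζ * ζ = 1) (a : Fin N) :
    ζ ^ ((N - (a : ℕ)) % N) = conj ζ ^ (a : ℕ) := by
  rw [← pow_eq_pow_mod _ h1]
  have h3 : ζ ^ (N - (a : ℕ)) * ζ ^ (a : ℕ) = 1 := by
    rw [← pow_add, Nat.sub_add_cancel a.2.le, h1]
  have h4 : conj ζ ^ (a : ℕ) * ζ ^ (a : ℕ) = 1 := by rw [← mul_pow, h2, one_pow]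
  have h5 : ζ ^ (a : ℕ) ≠ 0 := fun h => by
    rw [h, mul_zero] at h4
    exact zero_ne_one h4
  exact mul_right_cancel₀ h5 (h3.trans h4.symm)

lemma rh_ng [NeZero N] (k : ℕ) (α : Col N) (x : Site n L l) (j : Fin 4) :
    rh k (ng α) x j = conj (rh k α x j) := by
  unfold rh
  split_ifs
  · have h1 : conj (Run7.h630.MQ.om N k) ^ N = 1 := by rw [← map_pow, om_pow, map_one]
    have h2 : conj (conj (Run7.h630.MQ.om N k)) * conj (Run7.h630.MQ.om N k) = 1 := by
      rw [← map_mul, om_conj, map_one]
    rw [map_pow]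
    exact pow_ng _ h1 h2 α.2
  · rw [map_pow]
    exact pow_ng _ (om_pow k) (om_conj N k) α.1
  · rw [map_one]

/-- complex conjugation of functions -/
def cj (h : Site n L l → ℂ) : Site n L l → ℂ := fun x => conj (h x)

lemma nb_ng [NeZero N] (k : ℕ) (α : Col N) (j : Fin 4) (h : Site n L l → ℂ) :
    nb k (ng α) j (cj h) = cj (nb k α j h) := by
  funext x
  simp only [nb, cj, rh_ng, map_sub, map_mul]

lemma nbs_ng [NeZero N] (k : ℕ) (α : Col N) (j : Fin 4) (h : Site n L l → ℂ) :
    nbs k (ng α) j (cj h) = cj (nbs k α j h) := by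
  funext x
  simp only [nbs, cj, rh_ng, map_sub, map_mul]

lemma La_ng [NeZero N] (k : ℕ) (α : Col N) (h : Site n L l → ℂ) :
    La n L l k (ng α) (cj h) = cj (La n L l k α h) := by
  funext x
  show ∑ j : Fin 4, nbs k (ng α) j (nb k (ng α) j (cj h)) x =
    conj (∑ j : Fin 4, nbs k α j (nb k α j h) x)
  rw [map_sum]
  refine sum_congr rfl fun j _ => ?_
  rw [nb_ng, nbs_ng]
  rfl

/-- the inner product -/
noncomputable def ip [NeZero n] [NeZero L] [NeZero l] (f g : Site n L l → ℂ) : ℂ :=
  ∑ x, conj (f x) * g x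

lemma ip_conj [NeZero n] [NeZero L] [NeZero l] (f g : Site n L l → ℂ) :
    conj (ip f g) = ip g f := by
  unfold ip
  rw [map_sum]
  refine sum_congr rfl fun x _ => ?_
  rw [map_mul, Complex.conj_conj, mul_comm]

lemma ip_nbs [NeZero n] [NeZero L] [NeZero l] (k : ℕ) (α : Col N) (j : Fin 4)
    (f g : Site n L l → ℂ) : ip f (nbs k α j g) = ip (nb k α j f) g := by
  unfold ip
  have h1 : ∑ x, conj (f x) * nbs k α j g x =
      ∑ x, conj (f x) * (conj (rh k α (x - dir j) j) * g (x - dir j)) - ∑ x, conj (f x) * g x := by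
    rw [← sum_sub_distrib]
    exact sum_congr rfl fun x _ => by unfold nbs; ring
  have h2 : ∑ x, conj (nb k α j f x) * g x =
      ∑ x, conj (f (x + dir j)) * (conj (rh k α x j) * g x) - ∑ x, conj (f x) * g x := by
    rw [← sum_sub_distrib]
    exact sum_congr rfl fun x _ => by unfold nb; rw [map_sub, map_mul]; ring
  rw [h1, h2]
  congr 1
  rw [← Equiv.sum_comp (Equiv.addRight (dir j : Site n L l))]
  refine sum_congr rfl fun x _ => ?_
  rw [Equiv.coe_addRight, add_sub_cancel_right]

lemma ip_nb [NeZero n] [NeZero L] [NeZero l] (k : ℕ) (α : Col N) (j : Fin 4)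
    (f g : Site n L l → ℂ) : ip f (nb k α j g) = ip (nbs k α j f) g := by
  rw [← ip_conj, ← ip_nbs, ip_conj]

lemma ip_La [NeZero n] [NeZero L] [NeZero l] (k : ℕ) (α : Col N) (f g : Site n L l → ℂ) :
    ip f (La n L l k α g) = ∑ j : Fin 4, ip (nb k α j f) (nb k α j g) := by
  have h1 : ip f (La n L l k α g) = ∑ j : Fin 4, ip f (nbs k α j (nb k α j g)) := by
    unfold ip
    rw [sum_comm]
    refine sum_congr rfl fun x _ => ?_
    rw [← mul_sum]
    rfl
  rw [h1]
  exact sum_congr rfl fun j _ => ip_nbs k α j _ _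

lemma La_adj [NeZero n] [NeZero L] [NeZero l] (k : ℕ) (α : Col N) (f g : Site n L l → ℂ) :
    ip f (La n L l k α g) = ip (La n L l k α f) g := by
  rw [← ip_conj g, ip_La, ip_La, map_sum]
  exact sum_congr rfl fun j _ => (ip_conj _ _).symm

/-- the Laplacian is invertible -/
def Inv (n L l k : ℕ) (α : Col N) : Prop :=
  (∀ h, La n L l k α (Gr n L l k α h) = h) ∧ (∀ h, Gr n L l k α (La n L l k α h) = h)

lemma Gr_adj [NeZero n] [NeZero L] [NeZero l] (k : ℕ) (α : Col N) (hI : Inv n L l k α)
    (f g : Site n L l → ℂ) : ip f (Gr n L l k α g) = ip (Gr n L l k α f) g := by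
  have h1 : ip f (Gr n L l k α g) = ip (La n L l k α (Gr n L l k α f)) (Gr n L l k α g) := by
    rw [hI.1]
  rw [h1, ← La_adj, hI.1]

lemma Gr_ng [NeZero N] (k : ℕ) (α : Col N) (hI : Inv n L l k α) (hI' : Inv n L l k (ng α))
    (h : Site n L l → ℂ) : Gr n L l k (ng α) (cj h) = cj (Gr n L l k α h) := by
  have h1 : cj h = La n L l k (ng α) (cj (Gr n L l k α h)) := by rw [La_ng, hI.1]
  rw [h1, hI'.2]

/-- the point mass -/
def dt (y : Site n L l) (x : Site n L l) : ℂ := if x = y then 1 else 0

lemma cj_dt (y : Site n L l) : cj (dt y) = dt y := by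
  funext x
  unfold cj dt
  split_ifs <;> simp

lemma ip_dt [NeZero n] [NeZero L] [NeZero l] (x : Site n L l) (h : Site n L l → ℂ) :
    ip (dt x) h = h x := by
  unfold ip dt
  rw [sum_eq_single x]
  · simp
  · intro z _ hz
    simp [hz]
  · intro h
    exact absurd (mem_univ _) h

/-- the elementary kernel -/
noncomputable def KK (k : ℕ) (α : Col N) (p q : Fin 4) (x y : Site n L l) : ℂ :=
  nb k α p (Gr n L l k α (nbs k α q (dt y))) x

lemma KK_conj [NeZero n] [NeZero L] [NeZero l] (k : ℕ) (α : Col N) (hI : Inv n L l k α)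
    (p q : Fin 4) (x y : Site n L l) : conj (KK k α p q x y) = KK k α q p y x := by
  have h0 : KK k α p q x y = ip (dt x) (nb k α p (Gr n L l k α (nbs k α q (dt y)))) :=
    (ip_dt x _).symm
  have h1 : KK k α p q x y = ip (nb k α q (Gr n L l k α (nbs k α p (dt x)))) (dt y) := by
    rw [h0, ip_nb, Gr_adj k α hI, ip_nbs]
  rw [h1, ip_conj, ip_dt]
  rfl

lemma KK_ng [NeZero N] (k : ℕ) (α : Col N) (hI : Inv n L l k α) (hI' : Inv n L l k (ng α))
    (p q : Fin 4) (x y : Site n L l) : KK k (ng α) p q x y = conj (KK k α p q x y) := by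
  unfold KK
  rw [← cj_dt y, nbs_ng, Gr_ng k α hI hI', nb_ng, cj_dt]
  rfl

lemma pot_dl (k : ℕ) (α : Col N) (i j : Fin 4) (hij : i ≠ j) (y : Site n L l) (b : Fin 4) :
    pot k α (dl i j y) b = fun z => (if b = j then Gr n L l k α (nbs k α i (dt y)) z else 0) -
      (if b = i then Gr n L l k α (nbs k α j (dt y)) z else 0) := by
  have h1 : (fun x => ∑ a : Fin 4, nbs k α a (dl i j y a b) x) =
      (if b = j then (1 : ℂ) else 0) • nbs k α i (dt y) -
        (if b = i then (1 : ℂ) else 0) • nbs k α j (dt y) := by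
    funext x
    have h2 : ∀ a : Fin 4, nbs k α a (dl i j y a b) x =
        (if a = i then (if b = j then 1 else 0) * nbs k α a (dt y) x else 0) -
          (if a = j then (if b = i then 1 else 0) * nbs k α a (dt y) x else 0) := by
      intro a
      have h3 : dl i j y a b = fun x => ((if a = i then (if b = j then 1 else 0) else 0) -
          (if a = j then (if b = i then 1 else 0) else 0)) * dt y x := by
        funext x
        unfold dl dt
        by_cases h4 : a = i
        · subst h4
          simp [hij]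
        · by_cases h5 : a = j
          · subst h5
            by_cases h6 : b = i <;> simp [h4, h6]
          · simp [h4, h5]
      rw [h3]
      unfold nbs
      split_ifs <;> ring
    rw [sum_congr rfl fun a _ => h2 a, sum_sub_distrib, sum_ite_eq', sum_ite_eq']
    simp only [mem_univ, if_true, Pi.sub_apply, Pi.smul_apply, smul_eq_mul]
  unfold pot
  rw [h1, map_sub, map_smul, map_smul]
  funext z
  simp only [Pi.sub_apply, Pi.smul_apply, smul_eq_mul]
  split_ifs <;> ring

lemma kr_eq (k : ℕ) (α : Col N) (i j i' j' : Fin 4) (h : i' ≠ j') (x y : Site n L l) :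
    kr k α i j i' j' x y = (if j = j' then KK k α i i' x y else 0) -
      (if j = i' then KK k α i j' x y else 0) - (if i = j' then KK k α j i' x y else 0) +
        (if i = i' then KK k α j j' x y else 0) := by
  unfold kr
  rw [pot_dl k α i' j' h, pot_dl k α i' j' h]
  unfold KK nb
  split_ifs <;> ring

lemma kr_conj [NeZero n] [NeZero L] [NeZero l] (k : ℕ) (α : Col N) (hI : Inv n L l k α)
    (i j i' j' : Fin 4) (h : i ≠ j) (h' : i' ≠ j') (x y : Site n L l) :
    conj (kr k α i j i' j' x y) = kr k α i' j' i j y x := by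
  rw [kr_eq k α i j i' j' h', kr_eq k α i' j' i j h]
  simp only [map_add, map_sub, apply_ite conj, map_zero, KK_conj k α hI]
  simp only [eq_comm (a := j') (b := j), eq_comm (a := j') (b := i), eq_comm (a := i') (b := j),
    eq_comm (a := i') (b := i)]
  ring

lemma kr_ng [NeZero N] (k : ℕ) (α : Col N) (hI : Inv n L l k α)
    (hI' : Inv n L l k (ng α)) (i j i' j' : Fin 4) (h' : i' ≠ j') (x y : Site n L l) :
    kr k (ng α) i j i' j' x y = conj (kr k α i j i' j' x y) := by
  rw [kr_eq k (ng α) i j i' j' h', kr_eq k α i j i' j' h']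
  simp only [map_add, map_sub, apply_ite conj, map_zero, KK_ng k α hI hI']

set_option linter.unusedSectionVars false

section Prg

variable [NeZero N] [NeZero n] [NeZero L] [NeZero l]

lemma prg_pf (k : ℕ) {α : Col N} (hα : α ∈ Cz N) (w : ℂ) {i j : Fin 4} (hij : i < j)
    (x : Site n L l) (a : Col N → Fin 4 → Site n L l → ℂ) :
    prg k (pf α w i j x) a = (w * conj (nb k α i (a α j) x - nb k α j (a α i) x)).re := by
  unfold prg
  rw [sum_eq_single_of_mem α hα, sum_eq_single_of_mem x (mem_univ _),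
    sum_eq_single_of_mem i (mem_univ _), sum_eq_single_of_mem j (mem_Ioi.2 hij)]
  · simp [pf, dl]
  · intro b _ hb
    simp [pf, dl, hb, hij.ne]
  · intro b _ hb
    refine sum_eq_zero fun c hc => ?_
    rw [mem_Ioi] at hc
    have h1 : ¬ (b = j ∧ c = i) := by
      rintro ⟨rfl, rfl⟩
      exact lt_asymm hij hc
    simp [pf, dl, hb, h1]
  · intro z _ hz
    refine sum_eq_zero fun b _ => sum_eq_zero fun c _ => ?_
    simp [pf, dl, hz]
  · intro β _ hβ
    refine sum_eq_zero fun z _ => sum_eq_zero fun b _ => sum_eq_zero fun c _ => ?_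
    simp [pf, hβ]

lemma prg_add_left (k : ℕ) (f g : Col N → Fin 4 → Fin 4 → Site n L l → ℂ)
    (a : Col N → Fin 4 → Site n L l → ℂ) :
    prg k (fun α i j x => f α i j x + g α i j x) a = prg k f a + prg k g a := by
  unfold prg
  simp only [add_mul, Complex.add_re, sum_add_distrib]

lemma prg_add_right (k : ℕ) (f : Col N → Fin 4 → Fin 4 → Site n L l → ℂ)
    (a b : Col N → Fin 4 → Site n L l → ℂ) :
    prg k f (fun α i x => a α i x + b α i x) = prg k f a + prg k f b := by
  unfold prg
  simp only [← sum_add_distrib]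
  refine sum_congr rfl fun α _ => sum_congr rfl fun x _ => sum_congr rfl fun i _ =>
    sum_congr rfl fun j _ => ?_
  rw [← Complex.add_re, ← mul_add, ← map_add]
  congr 3
  unfold nb
  ring

lemma po_add (k : ℕ) (f g : Col N → Fin 4 → Fin 4 → Site n L l → ℂ) :
    po k (fun α i j x => f α i j x + g α i j x) = fun α j x => po k f α j x + po k g α j x := by
  funext α j x
  unfold po pot
  rw [← Pi.add_apply, ← map_add]
  refine congrFun (congrArg (Gr n L l k α) ?_) x
  funext z
  rw [Pi.add_apply, ← sum_add_distrib]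
  refine sum_congr rfl fun i _ => ?_
  unfold nbs
  ring

lemma tw0_add (χ : Col N → ℂ) (a b : Col N → Fin 4 → Site n L l → ℂ) :
    tw0 χ (fun α i x => a α i x + b α i x) = fun α i x => tw0 χ a α i x + tw0 χ b α i x := by
  funext α i x
  unfold tw0
  rw [← mul_add, ← map_add]
  congr 2
  ring

lemma ct_eq (χ : Col N → ℂ) (k : ℕ) (f g : Col N → Fin 4 → Fin 4 → Site n L l → ℂ) :
    ct χ k f g = (N / 2 : ℝ) * (prg k f (po k g) + prg k g (po k f)) -
      1 / 2 * (prg k f (tw0 χ (po k g)) + prg k g (tw0 χ (po k f))) := by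
  unfold ct cc
  rw [po_add, tw0_add]
  simp only [prg_add_left, prg_add_right]
  ring

lemma po_pf (k : ℕ) (α : Col N) (w : ℂ) (i j : Fin 4) (x : Site n L l) (β : Col N) (b : Fin 4) :
    po k (pf α w i j x) β b = fun z => if β = α then w * pot k β (dl i j x) b z else 0 := by
  unfold po
  by_cases h : β = α
  · subst h
    simp only [if_true]
    have h1 : (fun z => ∑ a : Fin 4, nbs k β a (pf β w i j x β a b) z) =
        w • fun z => ∑ a : Fin 4, nbs k β a (dl i j x a b) z := by
      funext z
      rw [Pi.smul_apply, smul_eq_mul, mul_sum]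
      refine sum_congr rfl fun a _ => ?_
      unfold nbs pf
      simp only [if_true]
      ring
    unfold pot
    rw [h1, map_smul]
    rfl
  · simp only [h, if_false]
    have h1 : (fun z => ∑ a : Fin 4, nbs k β a (pf α w i j x β a b) z) = 0 := by
      funext z
      rw [Pi.zero_apply]
      refine sum_eq_zero fun a _ => ?_
      unfold nbs pf
      simp [h]
    unfold pot
    rw [h1, map_zero]
    rfl

lemma B1 (k : ℕ) {α α' : Col N} (hα : α ∈ Cz N) (w w' : ℂ) {i j : Fin 4} (hij : i < j)
    (i' j' : Fin 4) (x y : Site n L l) :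
    prg k (pf α w i j x) (po k (pf α' w' i' j' y)) =
      (w * conj (if α = α' then w' * kr k α i j i' j' x y else 0)).re := by
  rw [prg_pf k hα w hij, po_pf, po_pf]
  congr 3
  by_cases h : α = α'
  · simp only [h, if_true]
    unfold kr nb
    ring
  · simp only [h, if_false]
    unfold nb
    simp

lemma B2 (χ : Col N → ℂ) (k : ℕ) {α α' : Col N} (hα : α ∈ Cz N) (w w' : ℂ) {i j : Fin 4}
    (hij : i < j) (i' j' : Fin 4) (x y : Site n L l) :
    prg k (pf α w i j x) (tw0 χ (po k (pf α' w' i' j' y))) =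
      (w * (N * χ α * (if ng α = α' then w' * kr k (ng α) i j i' j' x y else 0))).re := by
  rw [prg_pf k hα w hij]
  congr 2
  have h1 : nb k α i (tw0 χ (po k (pf α' w' i' j' y)) α j) x -
      nb k α j (tw0 χ (po k (pf α' w' i' j' y)) α i) x = N * conj (χ α) *
        conj (nb k (ng α) i (po k (pf α' w' i' j' y) (ng α) j) x -
          nb k (ng α) j (po k (pf α' w' i' j' y) (ng α) i) x) := by
    unfold nb tw0
    simp only [rh_ng, map_sub, map_mul, Complex.conj_conj]
    ring
  rw [h1, map_mul, map_mul, Complex.conj_conj, Complex.conj_conj, Complex.conj_natCast]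
  congr 1
  rw [po_pf, po_pf]
  by_cases h : ng α = α'
  · simp only [h, if_true]
    unfold kr nb
    ring
  · simp only [h, if_false]
    unfold nb
    simp

end Prg

lemma sum_w (F : ℂ → ℝ) : ∑ w ∈ ({1, Complex.I} : Finset ℂ), F w = F 1 + F Complex.I := by
  rw [sum_pair]
  intro h
  have := congrArg Complex.re h
  simp at this

/-- Piece `W5a`. -/
theorem t_W5a : S_W5a := by
  intro N n L l k _ _ _ _ hk χ hχ1 hχ2 i j i' j' hij hij' x y
  obtain ⟨C, _, hC⟩ := Run7.h270.QC.t_Q5a N
  have hInv : ∀ α ∈ Cz N, Inv n L l k α := by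
    intro α hα
    rw [Cz, mem_erase] at hα
    obtain ⟨h1, h2, _⟩ := hC n L l k hk α hα.1
    exact ⟨h1, h2⟩
  have hct : ∀ α ∈ Cz N, ∀ α' ∈ Cz N, ∀ w w' : ℂ,
      ct χ k (pf α w i j x) (pf α' w' i' j' y) =
        N * ((if α' = α then (w * conj w' * conj (kr k α i j i' j' x y)).re else 0) -
          (if α' = ng α then (w * w' * χ α * conj (kr k α i j i' j' x y)).re else 0)) := by
    intro α hα α' hα' w w'
    rw [ct_eq, B1 k hα w w' hij, B1 k hα' w' w hij', B2 χ k hα w w' hij, B2 χ k hα' w' w hij']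
    have e1 : (w * conj (if α = α' then w' * kr k α i j i' j' x y else 0)).re =
        if α' = α then (w * conj w' * conj (kr k α i j i' j' x y)).re else 0 := by
      by_cases h : α' = α
      · rw [if_pos h.symm, if_pos h, map_mul, mul_assoc]
      · rw [if_neg (fun h' => h h'.symm), if_neg h]
        simp
    have e2 : (w' * conj (if α' = α then w * kr k α' i' j' i j y x else 0)).re =
        if α' = α then (w * conj w' * conj (kr k α i j i' j' x y)).re else 0 := by
      by_cases h : α' = α
      · rw [if_pos h, if_pos h, h, ← kr_conj k α (hInv α hα) i j i' j' hij.ne hij'.ne, map_mul,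
          Complex.conj_conj, ← Complex.conj_re, map_mul, map_mul, Complex.conj_conj]
        congr 1
        ring
      · rw [if_neg h, if_neg h]
        simp
    have e3 : (w * (N * χ α * (if ng α = α' then w' * kr k (ng α) i j i' j' x y else 0))).re =
        N * (if α' = ng α then (w * w' * χ α * conj (kr k α i j i' j' x y)).re else 0) := by
      by_cases h : α' = ng α
      · rw [if_pos h.symm, if_pos h, kr_ng k α (hInv α hα) (hInv _ (ng_mem hα)) i j i' j' hij'.ne,
          ← Complex.re_ofReal_mul]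
        congr 1
        push_cast
        ring
      · rw [if_neg (fun h' => h h'.symm), if_neg h]
        simp
    have e4 : (w' * (N * χ α' * (if ng α' = α then w * kr k (ng α') i' j' i j y x else 0))).re =
        N * (if α' = ng α then (w * w' * χ α * conj (kr k α i j i' j' x y)).re else 0) := by
      by_cases h : α' = ng α
      · have h5 : ng α' = α := by rw [h, ng_ng]
        rw [if_pos h5, if_pos h, h5, ← kr_conj k α (hInv α hα) i j i' j' hij.ne hij'.ne,
          ← Complex.re_ofReal_mul, h, hχ2]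
        congr 1
        push_cast
        ring
      · have h5 : ¬ ng α' = α := fun h6 => h (by rw [← h6, ng_ng])
        rw [if_neg h5, if_neg h]
        simp
    rw [e1, e2, e3, e4]
    ring
  rw [mul_sum]
  refine sum_congr rfl fun α hα => ?_
  rw [sum_w]
  simp only [sum_w]
  have hN : (0 : ℝ) ≤ N := Nat.cast_nonneg N
  set κ : ℂ := kr k α i j i' j' x y with hκ
  have hnorm : ‖κ‖ ^ 2 = κ.re ^ 2 + κ.im ^ 2 := by
    rw [← Complex.normSq_eq_norm_sq, Complex.normSq_apply]
    ring
  have hχn : (χ α).re ^ 2 + (χ α).im ^ 2 = 1 := by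
    have := Complex.normSq_eq_norm_sq (χ α)
    rw [hχ1, Complex.normSq_apply] at this
    linarith
  have hS : ∀ w : ℂ, ∑ α' ∈ Cz N, (ct χ k (pf α w i j x) (pf α' 1 i' j' y) ^ 2 +
      ct χ k (pf α w i j x) (pf α' Complex.I i' j' y) ^ 2) =
      ∑ α' ∈ Cz N, ((N * ((if α' = α then (w * conj κ).re else 0) -
          (if α' = ng α then (w * χ α * conj κ).re else 0))) ^ 2 +
        (N * ((if α' = α then (w * -Complex.I * conj κ).re else 0) -
          (if α' = ng α then (w * Complex.I * χ α * conj κ).re else 0))) ^ 2) := by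
    intro w
    refine sum_congr rfl fun α' hα' => ?_
    rw [hct α hα α' hα' w 1, hct α hα α' hα' w Complex.I]
    simp only [map_one, mul_one, Complex.conj_I, ← hκ]
  rw [hS, hS]
  by_cases hng : ng α = α
  · -- the self-dual colours
    have hreal : κ.im = 0 := by
      have h1 := kr_ng k α (hInv α hα) (hInv _ (ng_mem hα)) i j i' j' hij'.ne x y
      rw [hng, ← hκ] at h1
      exact Complex.conj_eq_iff_im.1 h1.symm
    have hone : ∀ w : ℂ, ∑ α' ∈ Cz N, ((N * ((if α' = α then (w * conj κ).re else 0) -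
          (if α' = ng α then (w * χ α * conj κ).re else 0))) ^ 2 +
        (N * ((if α' = α then (w * -Complex.I * conj κ).re else 0) -
          (if α' = ng α then (w * Complex.I * χ α * conj κ).re else 0))) ^ 2) =
        (N * ((w * conj κ).re - (w * χ α * conj κ).re)) ^ 2 +
          (N * ((w * -Complex.I * conj κ).re - (w * Complex.I * χ α * conj κ).re)) ^ 2 := by
      intro w
      rw [sum_eq_single_of_mem α hα]
      · rw [hng]
        simp only [if_true]
      · intro β _ hβ
        rw [hng]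
        simp only [if_neg hβ]
        ring
    rw [hone, hone, hnorm]
    simp only [Complex.mul_re, Complex.mul_im, Complex.conj_re, Complex.conj_im, Complex.one_re,
      Complex.one_im, Complex.I_re, Complex.I_im, Complex.neg_re, Complex.neg_im, hreal]
    linear_combination (2 * (N : ℝ) ^ 2 * κ.re ^ 2) * hχn
  · have htwo : ∀ w : ℂ, ∑ α' ∈ Cz N, ((N * ((if α' = α then (w * conj κ).re else 0) -
          (if α' = ng α then (w * χ α * conj κ).re else 0))) ^ 2 +
        (N * ((if α' = α then (w * -Complex.I * conj κ).re else 0) -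
          (if α' = ng α then (w * Complex.I * χ α * conj κ).re else 0))) ^ 2) =
        ((N * (w * conj κ).re) ^ 2 + (N * (w * -Complex.I * conj κ).re) ^ 2) +
          ((N * (w * χ α * conj κ).re) ^ 2 + (N * (w * Complex.I * χ α * conj κ).re) ^ 2) := by
      intro w
      rw [← sum_erase_add _ _ hα, ← sum_erase_add _ _ (mem_erase.2 ⟨hng, ng_mem hα⟩),
        sum_eq_zero]
      · rw [if_pos rfl, if_pos rfl, if_pos rfl, if_pos rfl, if_neg hng, if_neg hng,
          if_neg (fun h => hng h.symm), if_neg (fun h => hng h.symm)]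
        ring
      · intro β hβ
        rw [mem_erase, mem_erase] at hβ
        rw [if_neg hβ.1, if_neg hβ.1, if_neg hβ.2.1, if_neg hβ.2.1]
        ring
    rw [htwo, htwo, hnorm]
    simp only [Complex.mul_re, Complex.mul_im, Complex.conj_re, Complex.conj_im, Complex.one_re,
      Complex.one_im, Complex.I_re, Complex.I_im, Complex.neg_re, Complex.neg_im]
    linear_combination (2 * (N : ℝ) ^ 2 * (κ.re ^ 2 + κ.im ^ 2)) * hχn

end Run7.h819.QW
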